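import Pool.Agent.Helper83.EIN2.Goals
import Pool.Agent.Helper59.EIN2.MMN
import Pool.Agent.Helper26.EIN2.LLZ

/-!
# Project EIN2, packet LLN: the zeros of the chart `LL` are nondegenerate.
-/

set_option autoImplicit false

namespace Pool.Agent.Helper99.EIN2

open Pool.Agent.Helper83.EIN2 Pool.Agent.Helper59.EIN2

/-- The linearised equations. -/
theorem eqsLL {a β : ℝ} {p d : Fin 12 → ℝ}
    (h : HasDerivAt (fun r : ℝ ↦ FLL a β 0 (p + r • d)) 0 0) :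
    (-((1 - a) * d 1) + ((1 - β) * d 4 + β * d 3) - (β * d 2 + d 4) = 0 ∧
    -((1 - a) * d 1) + ((1 - β) * d 4 + β * d 3) - (β * d 3 - (1 + β) * d 4) = 0 ∧
    -((1 - a) * d 1) + ((1 - β) * d 4 + β * d 3) - (d 3 - (1 + β) * d 2) = 0) ∧
    (-(a * (d 10 - d 11 - d 1)) + ((1 - β) * d 7 + β * d 6) - (β * d 5 + d 7) = 0 ∧
    -(a * (d 10 - d 11 - d 1)) + ((1 - β) * d 7 + β * d 6) - (β * d 6 - (1 + β) * d 7) = 0 ∧
    -(a * (d 10 - d 11 - d 1)) + ((1 - β) * d 7 + β * d 6) - (d 6 - (1 + β) * d 5) = 0) ∧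
    (-(a * d 10) + (1 - β) * (d 7 - d 4) - ((β * d 8 + (1 - β) * d 9) * p 0 +
      (β * p 8 + (1 - β) * p 9) * d 0 - β * d 8) = 0 ∧
    -(a * d 11) - β * (d 6 - d 3) - ((β * d 8 + (1 - β) * d 9) * p 0 +
      (β * p 8 + (1 - β) * p 9) * d 0 - (1 + β) * d 9) = 0) ∧
    (-(2 * p 0 * d 0) - 2 * β ^ 2 * d 8 = 0 ∧ -(2 * p 0 * d 0) - 2 * (1 + β) ^ 2 * d 9 = 0 ∧
    d 10 - 2 * β * d 8 = 0 ∧ d 11 - 2 * (1 + β) * d 9 = 0) := by
  refine ⟨⟨?_, ?_, ?_⟩, ⟨?_, ?_, ?_⟩, ⟨?_, ?_⟩, ?_, ?_, ?_, ?_⟩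
  · refine lin h 0 (-((1 - a) * p 1) + ((1 - β) * p 4 + β * p 3) - (β * p 2 + p 4)) _ 0 fun r ↦ ?_
    simp [FLL, lenLL]
    ring
  · refine lin h 1 (-((1 - a) * p 1) + ((1 - β) * p 4 + β * p 3) - (β * p 3 - (1 + β) * p 4)) _ 0
      fun r ↦ ?_
    simp [FLL, lenLL]
    ring
  · refine lin h 2 (-((1 - a) * p 1) + ((1 - β) * p 4 + β * p 3) - (p 3 - (1 + β) * p 2)) _ 0
      fun r ↦ ?_
    simp [FLL, lenLL]
    ring
  · refine lin h 3 (-(a * (p 10 - p 11 - p 1)) + ((1 - β) * p 7 + β * p 6) - (β * p 5 + p 7)) _ 0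
      fun r ↦ ?_
    simp [FLL, lenLL]
    ring
  · refine lin h 4 (-(a * (p 10 - p 11 - p 1)) + ((1 - β) * p 7 + β * p 6) -
      (β * p 6 - (1 + β) * p 7)) _ 0 fun r ↦ ?_
    simp [FLL, lenLL]
    ring
  · refine lin h 5 (-(a * (p 10 - p 11 - p 1)) + ((1 - β) * p 7 + β * p 6) -
      (p 6 - (1 + β) * p 5)) _ 0 fun r ↦ ?_
    simp [FLL, lenLL]
    ring
  · refine lin h 6 (-(a * p 10) + (1 - β) * (p 7 - p 4) -
      ((β * p 8 + (1 - β) * p 9) * p 0 - β * p 8)) _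
      (-((β * d 8 + (1 - β) * d 9) * d 0)) fun r ↦ ?_
    simp [FLL, lenLL]
    ring
  · refine lin h 7 (-(a * p 11) - β * (p 6 - p 3) -
      ((β * p 8 + (1 - β) * p 9) * p 0 - (1 + β) * p 9)) _
      (-((β * d 8 + (1 - β) * d 9) * d 0)) fun r ↦ ?_
    simp [FLL, lenLL]
    ring
  · refine lin h 8 (1 - p 0 ^ 2 - 2 * β ^ 2 * p 8) _ (-(d 0 ^ 2)) fun r ↦ ?_
    simp [FLL, lenLL]
    ring
  · refine lin h 9 (1 - p 0 ^ 2 - 2 * (1 + β) ^ 2 * p 9) _ (-(d 0 ^ 2)) fun r ↦ ?_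
    simp [FLL, lenLL]
    ring
  · refine lin h 10 (p 10 - 2 * β * p 8) _ 0 fun r ↦ ?_
    simp [FLL, lenLL]
    ring
  · refine lin h 11 (p 11 - 2 * (1 + β) * p 9) _ 0 fun r ↦ ?_
    simp [FLL, lenLL]
    ring

/-- The derivative of `(1 - s ^ 2) (D s - N)` is not zero at its zeros. -/
theorem deriv_ne {D N s : ℝ} (hD : 0 < D) (hN : |N| < D) (hs : s = 1 ∨ s = -1 ∨ s = N / D) :
    -2 * s * (D * s - N) + (1 - s ^ 2) * D ≠ 0 := by
  obtain ⟨h1, h2⟩ := abs_lt.1 hN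
  rcases hs with rfl | rfl | rfl
  · intro h
    linarith
  · intro h
    linarith
  · have e1 : D * (N / D) - N = 0 := by
      field_simp
      ring
    have e2 : (N / D) ^ 2 < 1 := by
      rw [sq_lt_one_iff_abs_lt_one, abs_div, abs_of_pos hD, div_lt_one hD]
      exact hN
    rw [e1, mul_zero, zero_add]
    exact (mul_pos (by linarith) hD).ne'

/-- **LLN**. -/
theorem lln : Pool.Agent.Helper83.EIN2.LLN := by
  intro a β ha ha1 hβ hβ1 habs s hs d hd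
  obtain ⟨⟨E0, E1, E2⟩, ⟨E3, E4, E5⟩, ⟨E6, E7⟩, E8, E9, E10, E11⟩ := eqsLL hd
  have z0 : zLL a β s 0 = s := by simp [zLL]
  have z8 : zLL a β s 8 = (1 - s ^ 2) / (2 * β ^ 2) := by simp [zLL]
  have z9 : zLL a β s 9 = (1 - s ^ 2) / (2 * (1 + β) ^ 2) := by simp [zLL]
  rw [z0, z8, z9] at E6 E7
  rw [z0] at E8 E9
  have hg0 : 0 < 1 - β := by linarith
  have hβ' : β ≠ 0 := hβ.ne'
  have hg' : 1 - β ≠ 0 := hg0.ne'
  have hb' : 1 + β ≠ 0 := by positivity
  obtain ⟨x, hx⟩ : ∃ x, x = d 0 := ⟨_, rfl⟩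
  rw [← hx] at E6 E7 E8 E9
  have d8 : d 8 = -(s * x) / β ^ 2 := by
    rw [eq_div_iff (by positivity)]
    linear_combination -(1 / 2 : ℝ) * E8
  have d9 : d 9 = -(s * x) / (1 + β) ^ 2 := by
    rw [eq_div_iff (by positivity)]
    linear_combination -(1 / 2 : ℝ) * E9
  have d10 : d 10 = -(2 * s * x) / β := by
    have h : d 10 = 2 * β * d 8 := by linear_combination E10
    rw [h, d8]
    field_simp
  have d11 : d 11 = -(2 * s * x) / (1 + β) := by
    have h : d 11 = 2 * (1 + β) * d 9 := by linear_combination E11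
    rw [h, d9]
    field_simp
  have d4 : d 4 = (1 - a) * d 1 / 2 := by linear_combination E1 / 2
  have d2 : d 2 = d 4 / β ^ 2 := by
    rw [eq_div_iff (by positivity)]
    linear_combination ((1 - β) * E0 + β * E2 - E1) / 2
  have d3 : d 3 = (1 + β) ^ 2 / β ^ 2 * d 4 := by
    have h : d 3 = (1 + β) ^ 2 * d 2 := by
      have e2' : d 4 = d 2 * β ^ 2 := by rw [d2]; field_simp
      have h : β * (d 3 - (1 + β) ^ 2 * d 2) = 0 := by
        linear_combination E0 - E1 + (2 + β) * e2'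
      rcases mul_eq_zero.1 h with h | h
      · exact absurd h hβ'
      · linear_combination h
    rw [h, d2]
    ring
  have d7 : d 7 = a * (d 10 - d 11 - d 1) / 2 := by linear_combination E4 / 2
  have d5 : d 5 = d 7 / β ^ 2 := by
    rw [eq_div_iff (by positivity)]
    linear_combination ((1 - β) * E3 + β * E5 - E4) / 2
  have d6 : d 6 = (1 + β) ^ 2 / β ^ 2 * d 7 := by
    have h : d 6 = (1 + β) ^ 2 * d 5 := by
      have e2' : d 7 = d 5 * β ^ 2 := by rw [d5]; field_simp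
      have h : β * (d 6 - (1 + β) ^ 2 * d 5) = 0 := by
        linear_combination E3 - E4 + (2 + β) * e2'
      rcases mul_eq_zero.1 h with h | h
      · exact absurd h hβ'
      · linear_combination h
    rw [h, d5]
    ring
  have hD : 0 < ((1 + β) ^ 2 + β * (1 - β)) ^ 2 := by positivity
  have hN : |(1 - 2 * a) * (1 + β) * ((1 + β) ^ 3 + (1 - β) * β ^ 2)| <
      ((1 + β) ^ 2 + β * (1 - β)) ^ 2 := by
    have h := habs
    unfold sLL at h
    rw [abs_div, abs_of_pos hD, div_lt_one hD] at h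
    exact h
  have hx0 : x = 0 := by
    have k : -(a * d 11 * (1 - β)) - (1 + β) ^ 2 / β *
        (a * d 10 + ((β * d 8 + (1 - β) * d 9) * s + (β * ((1 - s ^ 2) / (2 * β ^ 2)) +
          (1 - β) * ((1 - s ^ 2) / (2 * (1 + β) ^ 2))) * x - β * d 8)) -
        (1 - β) * ((β * d 8 + (1 - β) * d 9) * s + (β * ((1 - s ^ 2) / (2 * β ^ 2)) +
          (1 - β) * ((1 - s ^ 2) / (2 * (1 + β) ^ 2))) * x - (1 + β) * d 9) = 0 := by
      have e63 : β * (d 6 - d 3) = (1 + β) ^ 2 / β * (d 7 - d 4) := by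
        rw [d6, d3]
        field_simp
      rw [e63] at E7
      have E7' : (1 - β) * (-(a * d 11)) - (1 + β) ^ 2 / β * ((1 - β) * (d 7 - d 4)) -
          (1 - β) * ((β * d 8 + (1 - β) * d 9) * s + (β * ((1 - s ^ 2) / (2 * β ^ 2)) +
          (1 - β) * ((1 - s ^ 2) / (2 * (1 + β) ^ 2))) * x - (1 + β) * d 9) = 0 := by
        linear_combination (1 - β) * E7
      have e74 : (1 - β) * (d 7 - d 4) = a * d 10 + ((β * d 8 + (1 - β) * d 9) * s +
          (β * ((1 - s ^ 2) / (2 * β ^ 2)) +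
          (1 - β) * ((1 - s ^ 2) / (2 * (1 + β) ^ 2))) * x - β * d 8) := by
        linear_combination E6
      rw [e74] at E7'
      linear_combination E7'
    rw [d8, d9, d10, d11] at k
    have h : x * (-2 * s * (((1 + β) ^ 2 + β * (1 - β)) ^ 2 * s -
        (1 - 2 * a) * (1 + β) * ((1 + β) ^ 3 + (1 - β) * β ^ 2)) +
        (1 - s ^ 2) * ((1 + β) ^ 2 + β * (1 - β)) ^ 2) = 0 := by
      field_simp at k
      linear_combination -k
    exact (mul_eq_zero.1 h).resolve_right (deriv_ne hD hN hs)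
  have d0 : d 0 = 0 := by rw [← hx, hx0]
  rw [hx0] at d8 d9 d10 d11 E6
  simp only [mul_zero, neg_zero, zero_div] at d8 d9 d10 d11
  rw [d7, d4, d8, d9, d10, d11] at E6
  have d1 : d 1 = 0 := by
    have h : (1 - β) * d 1 = 0 := by linear_combination -2 * E6
    exact (mul_eq_zero.1 h).resolve_left hg'
  rw [d1, mul_zero, zero_div] at d4
  rw [d10, d11, d1, sub_zero, sub_zero, mul_zero, zero_div] at d7
  rw [d4, zero_div] at d2
  rw [d4, mul_zero] at d3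
  rw [d7, zero_div] at d5
  rw [d7, mul_zero] at d6
  funext i
  fin_cases i <;> simpa

end Pool.Agent.Helper99.EIN2
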